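import Pool.Agent.Helper72_Cut.Params

/-!
# Assembly : statements
-/

namespace H72C

open Finset Equiv Pool.Agent.Helper91_CW

/-- (the automatic search for this instance exceeds the size limit) -/
@[reducible] noncomputable def instFPV (P : Par) : Fintype (Perm (Vx P)) :=
  @instFintype (Vx P) (Vx P) _ _ _ _
attribute [instance] instFPV

/-- unit of time -/
noncomputable def EE (P : Par) : ℝ := 8 * nt P * P.M0 / (15 * 401000)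

/-- survival probability of a card -/
noncomputable def kwP (P : Par) (s : ℕ) (z : Hx P) : ℝ :=
  kw (Fintype.card (Fin P.Mn)) (wH P) (qH P) s z

/-- expected number of fresh cards -/
noncomputable def mwP (P : Par) (s : ℕ) : ℝ := mw (Fintype.card (Fin P.Mn)) (wH P) (qH P) s

/-- Z0 : sizes -/
def SIZE_stmt : Prop := ∀ R : ℕ, 10 ^ 13 ≤ R →
  10 ^ 6 * Jj R ≤ 4 ^ R ∧ 10 ^ 6 * R ≤ 4 ^ R ∧ 1 ≤ Jj R ∧ R * Ww R ≤ 4 ^ (3 * R) ∧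
  R * Ww R ≤ 4 ^ (4 ^ R / 10 ^ 5) ∧ 4 ^ Jj R ≤ 4 ^ (4 ^ R / 10 ^ 5)

/-- Z1 : rates -/
def RATE_stmt : Prop := ∀ (R : ℕ) (hR : 2 ≤ R), 10 ^ 13 ≤ R → ∀ P : Par, P = PR R hR →
  ((P.Mn : ℝ) ≤ nn P ∧ nn P ≤ 2 * P.Mn) ∧ 2 * Fintype.card (Hx P) ≤ P.Mn ∧
  (Fintype.card (Hx P) : ℝ) ≤ P.M0 * 4 ^ (Jj R + 3 * 4 ^ R + 1) ∧
  (0.999 * nn P ≤ nt P ∧ nt P ≤ nn P) ∧
  (1 / (1.1 * nn P * P.M0) ≤ p1 P ∧ p1 P ≤ 1 / (nn P * P.M0)) ∧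
  ((P.Mn : ℝ) ≤ dM P ∧ (dM P : ℝ) ≤ 2 * P.Mn) ∧
  (∀ g, (P.Mn : ℝ) ≤ dL P g (P.m g) ∧ (dL P g (P.m g) : ℝ) ≤ 2 * P.Mn) ∧
  (∀ g j, j < P.m g →
    (5 * bb R g j : ℝ) / (2 * nt P * P.M0 * (1 + 9 / R)) ≤ UP P g j) ∧
  (∀ g j, j + 1 < P.m g → UP P g j ≤ (5 * bb R g j : ℝ) / (2 * nt P * P.M0)) ∧
  (∀ g, 1 / (2 * nt P) ≤ UP P g (P.m g) ∧ UP P g (P.m g) ≤ 1 / nt P) ∧
  (∀ g, GoodU (UP P g) (P.m g)) ∧ 10 ^ 6 ≤ EE P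

/-- Z2 : natural times -/
def TIME_stmt : Prop := ∀ (R : ℕ) (hR : 2 ≤ R), 10 ^ 13 ≤ R → ∀ P : Par, P = PR R hR →
  (∀ i, i ≤ P.m false → SS (UP P false) i ≤ 1002.51 * EE P) ∧
  (∀ i, i ≤ P.m true → SS (UP P true) i ≤ 1003.01 * EE P) ∧
  (∀ i, i ≤ P.m true → ∀ i', i' ≤ P.m true → i + i' ≤ 5 * 4 ^ R + 4 ^ R / 16 →
    SS (UP P true) i + SS (UP P true) i' ≤ 2005.08 * EE P) ∧
  1002.49 * EE P ≤ SS (UP P false) (P.m false) ∧ 1002.99 * EE P ≤ SS (UP P true) (P.m true)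

/-- Z3 : one-card upper bounds for the parameters -/
def LADC_stmt : Prop := ∀ (R : ℕ) (hR : 2 ≤ R), 10 ^ 13 ≤ R → ∀ P : Par, P = PR R hR →
  (∀ (g : Bool) (t : ℕ), 501 * EE P ≤ t → ∀ j, j ≤ P.m g →
    bIt (UP P g) (P.m g) 0 (fun _ => 1) t j ≤ 3 ^ Jj R / 3 ^ j) ∧
  (∀ (g : Bool) (i t : ℕ), i ≤ P.m g → 501 * EE P ≤ t → SS (UP P g) i + EE P / 100 ≤ t →
    ∀ j, j ≤ P.m g → bIt (UP P g) (P.m g) 0 (fun l => if l ≤ i then 1 else 0) t j ≤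
      (1 / (2 * R * P.M0)) / 3 ^ j)

/-- Z4 : the root cards stay for a long time -/
def ROOT_stmt : Prop := ∀ (R : ℕ) (hR : 2 ≤ R), 10 ^ 13 ≤ R → ∀ P : Par, P = PR R hR →
  (∀ s : ℕ, (s : ℝ) ≤ 1002.45 * EE P → 1 / 2 ≤ bIt (UP P false) (P.m false) 0 (fun _ => 1) s 0) ∧
  (∀ s : ℕ, (s : ℝ) ≤ 1002.97 * EE P → 1 / 2 ≤ bIt (UP P true) (P.m true) 0 (fun _ => 1) s 0)

/-- Z5 : expected number of fresh cards -/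
def MW_stmt : Prop := ∀ (R : ℕ) (hR : 2 ≤ R), 10 ^ 13 ≤ R → ∀ P : Par, P = PR R hR →
  (∀ s, 0 ≤ mwP P s) ∧ (∀ s, mwP P (s + 1) ≤ mwP P s) ∧ mwP P 0 = Fintype.card (Hx P) ∧
  (∀ s : ℕ, 501 * EE P ≤ s → mwP P s ≤ 8 * P.M0 * 4 ^ Jj R * (64 / 27) ^ (4 ^ R)) ∧
  (∀ s : ℕ, 1003 * EE P ≤ s → mwP P s ≤ 5 * P.M0 * 4 ^ Jj R)

/-- first time -/
noncomputable def T1 (P : Par) : ℕ := ⌈2005.2 * EE P⌉₊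

/-- second time -/
noncomputable def T2 (P : Par) : ℕ := ⌊2005.4 * EE P⌋₊

/-- U1 -/
def U1_stmt : Prop := ∀ (R : ℕ) (hR : 2 ≤ R), 10 ^ 13 ≤ R → ∀ P : Par, P = PR R hR →
  2 * (Fintype.card (Fin P.Mn) : ℝ) ^ 2 * (1 - rH P * Fintype.card (Fin P.Mn) / 2) ^ (T1 P) ≤ 1 / 20

/-- U2 -/
def U2_stmt : Prop := ∀ (R : ℕ) (hR : 2 ≤ R), 10 ^ 13 ≤ R → ∀ P : Par, P = PR R hR →
  4 * ∑ s ∈ range (T1 P), (∑ v, qH P v * kwP P s v) * mwP P (T1 P - 1 - s) ≤ 1 / 20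

/-- U3 -/
def U3_stmt : Prop := ∀ (R : ℕ) (hR : 2 ≤ R), 10 ^ 13 ≤ R → ∀ P : Par, P = PR R hR →
  8 * (Fintype.card (Hx P) : ℝ) / Fintype.card (Fin P.Mn) * (∑ v, qH P v) *
    ∑ s ∈ range (T1 P), mwP P (T1 P - 1 - s) ≤ 1 / 20

/-- cards of level at least `Q = 4^R` -/
def Upp (P : Par) (R : ℕ) : Finset (Hx P) := univ.filter fun y => 4 ^ R ≤ lv P y

open Classical in
/-- U4 -/
def U4_stmt : Prop := ∀ (R : ℕ) (hR : 2 ≤ R), 10 ^ 13 ≤ R → ∀ P : Par, P = PR R hR →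
  2 * (∑ x, ∑ y, if GoodPair (cellN P) (Upp P R) (R * P.M0 * 4 ^ Jj R)
      (4 ^ (5 * 4 ^ R + 4 ^ R / 16)) x y then 0 else
    (Kw (Fintype.card (Fin P.Mn)) (wH P) (qH P))^[T1 P] (fun z => if z = y then 1 else 0) x) ≤ 1 / 20

/-- U5 -/
def U5_stmt : Prop := ∀ (R : ℕ) (hR : 2 ≤ R), 10 ^ 13 ≤ R → ∀ P : Par, P = PR R hR →
  2 * (∑ z ∈ Upp P R, kwP P (T1 P / 2) z * kwP P (T1 P - T1 P / 2) z) ≤ 1 / 20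

/-- U6 (easy from MW) and U7 -/
def U67_stmt : Prop := ∀ (R : ℕ) (hR : 2 ≤ R), 10 ^ 13 ≤ R → ∀ P : Par, P = PR R hR →
  2 * (((R * P.M0 * 4 ^ Jj R : ℕ) : ℝ)⁻¹ * mwP P (T1 P)) ≤ 1 / 20 ∧
  2 * Real.sqrt ((Fintype.card (Hx P) + Fintype.card (Fin P.Mn) : ℕ) /
    (4 : ℝ) ^ (5 * 4 ^ R + 4 ^ R / 16)) * mwP P (T1 P) ≤ 1 / 20

/-- Z6 : without the cross edges the walk is mixed at `T1` -/
def UPPER_stmt : Prop := ∀ (R : ℕ) (hR : 2 ≤ R), 10 ^ 13 ≤ R → ∀ P : Par, P = PR R hR →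
  nrm (nu (wX P) ^ T1 P - unif univ) ≤ 1 / 2

/-- Z7 -/
def FUP_stmt : Prop := ∀ (R : ℕ) (hR : 2 ≤ R), 10 ^ 13 ≤ R → ∀ P : Par, P = PR R hR →
  nrm (nu (wG (gr P)) ^ T1 P - unif univ) ≤ 1

/-- Z8 -/
def FLOW_stmt : Prop := ∀ (R : ℕ) (hR : 2 ≤ R), 10 ^ 13 ≤ R → ∀ P : Par, P = PR R hR →
  2 / 10 ^ 9 ≤ nrm (nu (wG (gr P)) ^ T2 P - unif univ)

/-- the final theorem -/
def FINAL_stmt : Prop := ∃ G : (n : ℕ) → SimpleGraph (Fin n),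
  (∀ n, 2 ≤ n → (G n).Connected) ∧ ¬ HasCutoff G

end H72C
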