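import Pool.Agent.Helper72_Cut.AsmStmts

/-!
# Z9 : the final theorem from the modules
-/

namespace H72C

open Finset Equiv Pool.Agent.Helper91_CW

open Classical in
/-- the sequence of graphs: the gadget graphs where they exist, complete graphs otherwise -/
noncomputable def GG (n : ℕ) : SimpleGraph (Fin n) :=
  if h : ∃ R : ℕ, ∃ hR : 2 ≤ R, 10 ^ 13 ≤ R ∧ Fintype.card (Vx (PR R hR)) = n then
    (gr (PR h.choose h.choose_spec.choose)).map
      (Fintype.equivFinOfCardEq h.choose_spec.choose_spec.2).toEmbedding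
  else ⊤

theorem GG_conn (hCONN : CONN_stmt) (n : ℕ) (hn : 2 ≤ n) : (GG n).Connected := by
  unfold GG
  split_ifs with h
  · have h1 := hCONN (PR h.choose h.choose_spec.choose)
    exact (SimpleGraph.Iso.connected_iff (SimpleGraph.Iso.map
      (Fintype.equivFinOfCardEq h.choose_spec.choose_spec.2)
      (gr (PR h.choose h.choose_spec.choose)))).mp h1
  · have : Nonempty (Fin n) := ⟨⟨0, by omega⟩⟩
    exact SimpleGraph.connected_top

theorem FINAL (hCUT : CUT_stmt) (hLAW : LAW_stmt) (hCONN : CONN_stmt) (hRATE : RATE_stmt)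
    (hFUP : FUP_stmt) (hFLOW : FLOW_stmt) : FINAL_stmt := by
  refine ⟨GG, GG_conn hCONN, ?_⟩
  apply hCUT GG (1 / 10 ^ 9) (1 / 20000) (by norm_num) (by norm_num) (GG_conn hCONN)
  intro N
  -- the size of the graph for `R0`
  set R0 : ℕ := max (10 ^ 13) N with hR0
  have hR0' : 2 ≤ R0 := by
    have : 10 ^ 13 ≤ R0 := le_max_left _ _
    omega
  have hR0big : 10 ^ 13 ≤ R0 := le_max_left _ _
  set n := Fintype.card (Vx (PR R0 hR0')) with hn
  have hex : ∃ R : ℕ, ∃ hR : 2 ≤ R, 10 ^ 13 ≤ R ∧ Fintype.card (Vx (PR R hR)) = n :=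
    ⟨R0, hR0', hR0big, rfl⟩
  have hnN : N ≤ n := by
    have h1 : (PR R0 hR0').Mn ≤ n := by
      rw [hn]
      have : Fintype.card (Vx (PR R0 hR0')) = Fintype.card (Hx (PR R0 hR0')) +
          Fintype.card (Fin (PR R0 hR0').Mn) := Fintype.card_sum
      rw [this, Fintype.card_fin]
      omega
    have h2 : R0 ≤ (PR R0 hR0').Mn := by
      show R0 ≤ 4 ^ (5 * 4 ^ R0)
      have h3 : R0 < 4 ^ R0 := Nat.lt_pow_self (by norm_num)
      have h4 : 4 ^ R0 < 4 ^ (4 ^ R0) := Nat.pow_lt_pow_right (by norm_num) h3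
      have h5 : 4 ^ (4 ^ R0) ≤ 4 ^ (5 * 4 ^ R0) := Nat.pow_le_pow_right (by norm_num) (by omega)
      omega
    have h3 : N ≤ R0 := le_max_right _ _
    omega
  refine ⟨n, hnN, ?_⟩
  obtain ⟨P, R, hR, hP, hbig, hcard, e, hG⟩ : ∃ (P : Par) (R : ℕ) (hR : 2 ≤ R), P = PR R hR ∧
      10 ^ 13 ≤ R ∧ (Fintype.card (Vx P) = n ∧ ∃ e : Vx P ≃ Fin n,
        GG n = (gr P).map e.toEmbedding) := by
    refine ⟨PR hex.choose hex.choose_spec.choose, hex.choose, hex.choose_spec.choose, rfl,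
      hex.choose_spec.choose_spec.1, hex.choose_spec.choose_spec.2, ?_⟩
    refine ⟨Fintype.equivFinOfCardEq hex.choose_spec.choose_spec.2, ?_⟩
    unfold GG
    rw [dif_pos hex]
  obtain ⟨-, -, -, ⟨hnt, -⟩, -, -, -, -, -, -, -, hE⟩ := hRATE R hR hbig P hP
  have h2n : 2 ≤ n := by
    have h1 : P.Mn ≤ n := by
      rw [← hcard]
      have : Fintype.card (Vx P) = Fintype.card (Hx P) + Fintype.card (Fin P.Mn) :=
        Fintype.card_sum
      rw [this, Fintype.card_fin]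
      omega
    have := P.hMn
    omega
  have hlaw := fun t => hLAW (Vx P) (gr P) n e (hCONN P) h2n t
  have hup := hFUP R hR hbig P hP
  have hlow := hFLOW R hR hbig P hP
  have hRr : (10 : ℝ) ^ 13 ≤ R := by exact_mod_cast hbig
  -- the unit of time is at least `N`
  have hEN : (N : ℝ) ≤ EE P := by
    have h1 : (N : ℝ) ≤ nn P := by
      unfold nn
      rw [hcard]
      exact_mod_cast hnN
    have h2 : (401000 * 10 ^ 13 : ℝ) ≤ P.M0 := by
      have : 401000 * 10 ^ 13 ≤ P.M0 := by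
        rw [hP]
        show 401000 * 10 ^ 13 ≤ R * Ww R
        have h3 : 401000 * 1 ≤ Ww R := by
          unfold Ww
          exact Nat.mul_le_mul_left _ (Nat.one_le_pow _ _ (by norm_num))
        calc 401000 * 10 ^ 13 = 10 ^ 13 * (401000 * 1) := by ring
          _ ≤ R * Ww R := Nat.mul_le_mul hbig h3
      exact_mod_cast this
    have h3 : (0 : ℝ) ≤ nn P := by unfold nn; positivity
    unfold EE
    rw [le_div_iff₀ (by norm_num)]
    have h4 : (0 : ℝ) ≤ nt P := by nlinarith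
    calc (N : ℝ) * (15 * 401000) ≤ nn P * (15 * 401000) := by gcongr
      _ ≤ 8 * (0.999 * nn P) * (401000 * 10 ^ 13) := by nlinarith
      _ ≤ 8 * nt P * P.M0 := by gcongr
  have hE' : (10 : ℝ) ^ 6 ≤ EE P := hE
  have hT1u : (T1 P : ℝ) ≤ 2005.2 * EE P + 1 := by
    unfold T1
    exact (Nat.ceil_lt_add_one (by positivity)).le
  have hT1l : 2005.2 * EE P ≤ (T1 P : ℝ) := by
    unfold T1
    exact Nat.le_ceil _
  have hT2l : 2005.4 * EE P - 1 ≤ (T2 P : ℝ) := by
    unfold T2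
    exact (Nat.sub_one_lt_floor _).le
  refine ⟨T1 P, T2 P, ?_, ?_, ?_, ?_⟩
  · have : (N : ℝ) ≤ (T1 P : ℝ) := by linarith
    exact_mod_cast this
  · calc (1 + 1 / 20000) * (T1 P : ℝ) ≤ (1 + 1 / 20000) * (2005.2 * EE P + 1) := by gcongr
      _ ≤ 2005.4 * EE P - 1 := by norm_num; linarith
      _ ≤ (T2 P : ℝ) := hT2l
  · rw [hG, hlaw]
    calc (1 / 2 : ℝ) * nrm (nu (wG (gr P)) ^ T1 P - unif univ) ≤ 1 / 2 * 1 := by gcongr
      _ ≤ 1 - 1 / 10 ^ 9 := by norm_num
  · rw [hG, hlaw]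
    calc (1 : ℝ) / 10 ^ 9 = 1 / 2 * (2 / 10 ^ 9) := by norm_num
      _ ≤ 1 / 2 * nrm (nu (wG (gr P)) ^ T2 P - unif univ) := by gcongr

end H72C
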