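import Pool.Agent.Helper72_Cut.AsmStmts

/-!
# Z2 : natural times
-/

namespace H72C

open Finset Equiv Pool.Agent.Helper91_CW

lemma SS_upper {U b : ℕ → ℝ} {m : ℕ} {C c : ℝ} (hb : ∀ l, 0 < b l) (hC : 0 < C) (hc : 0 < c)
    (hU : ∀ l, l < m → 5 * b l / (2 * C * c) ≤ U l) {i : ℕ} (hi : i ≤ m) :
    SS U i ≤ (8 * C / 15) * c * ∑ l ∈ range i, 1 / b l := by
  unfold SS
  rw [mul_sum]
  apply sum_le_sum
  intro l hl
  rw [mem_range] at hl
  have h1 := hU l (by omega)
  have hbl := hb l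
  have h0 : 0 < 5 * b l / (2 * C * c) := by positivity
  have hUp : 0 < U l := lt_of_lt_of_le h0 h1
  unfold sS
  have h2 : (4 : ℝ) / 3 * (1 - (1 / 4) ^ (l + 1)) ≤ 4 / 3 := by
    have : (0 : ℝ) ≤ (1 / 4) ^ (l + 1) := by positivity
    linarith
  calc 4 / 3 * (1 - (1 / 4) ^ (l + 1)) / U l ≤ (4 / 3) / U l := by
        gcongr
    _ ≤ (4 / 3) / (5 * b l / (2 * C * c)) := by
        gcongr
    _ = (8 * C / 15) * c * (1 / b l) := by
        field_simp
        ring

lemma SS_lower {U b : ℕ → ℝ} {m : ℕ} {C b0 : ℝ} (hb0 : 0 < b0) (hb : ∀ l, b0 ≤ b l) (hC : 0 < C)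
    (hUp : ∀ l, l ≤ m → 0 < U l)
    (hU : ∀ l, l + 1 < m → U l ≤ 5 * b l / (2 * C)) (hm : 1 ≤ m) :
    (8 * C / 15) * (∑ l ∈ range m, 1 / b l - 2 / b0) ≤ SS U m := by
  obtain ⟨k, rfl⟩ : ∃ k, m = k + 1 := ⟨m - 1, by omega⟩
  have h1 : SS U k ≤ SS U (k + 1) := by
    unfold SS
    rw [sum_range_succ]
    have h2 : 0 ≤ sS U k := by
      unfold sS
      have h3 : (1 / 4 : ℝ) ^ (k + 1) ≤ 1 := pow_le_one₀ (by norm_num) (by norm_num)
      have h4 := hUp k (by omega)
      apply div_nonneg _ h4.le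
      nlinarith
    linarith
  have h2 : (8 * C / 15) * ∑ l ∈ range k, (1 - (1 / 4) ^ (l + 1)) / b l ≤ SS U k := by
    unfold SS
    rw [mul_sum]
    apply sum_le_sum
    intro l hl
    rw [mem_range] at hl
    have h3 := hU l (by omega)
    have h4 := hUp l (by omega)
    have hbl : 0 < b l := lt_of_lt_of_le hb0 (hb l)
    unfold sS
    have h5 : (0 : ℝ) ≤ 1 - (1 / 4) ^ (l + 1) := by
      have : (1 / 4 : ℝ) ^ (l + 1) ≤ 1 := pow_le_one₀ (by norm_num) (by norm_num)
      linarith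
    rw [le_div_iff₀ h4]
    calc 8 * C / 15 * ((1 - (1 / 4) ^ (l + 1)) / b l) * U l
        ≤ 8 * C / 15 * ((1 - (1 / 4) ^ (l + 1)) / b l) * (5 * b l / (2 * C)) := by
          gcongr
      _ = 4 / 3 * (1 - (1 / 4) ^ (l + 1)) := by
          field_simp
          ring
  have h3 : ∑ l ∈ range k, (1 / 4 : ℝ) ^ (l + 1) / b l ≤ 1 / b0 := by
    calc ∑ l ∈ range k, (1 / 4 : ℝ) ^ (l + 1) / b l ≤ ∑ l ∈ range k, (1 / 4 : ℝ) ^ (l + 1) / b0 := by
          apply sum_le_sum
          intro l _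
          have := hb l
          gcongr
      _ = (∑ l ∈ range k, (1 / 4 : ℝ) ^ (l + 1)) / b0 := by rw [sum_div]
      _ ≤ 1 / b0 := by
          gcongr
          have h4 : ∀ k : ℕ, ∑ l ∈ range k, (1 / 4 : ℝ) ^ (l + 1) = (1 / 3) * (1 - (1 / 4) ^ k) := by
            intro k
            induction k with
            | zero => simp
            | succ k ih => rw [sum_range_succ, ih]; ring
          rw [h4 k]
          have : (0 : ℝ) ≤ (1 / 4) ^ k := by positivity
          linarith
  have h4 : ∑ l ∈ range k, (1 - (1 / 4 : ℝ) ^ (l + 1)) / b l =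
      ∑ l ∈ range k, 1 / b l - ∑ l ∈ range k, (1 / 4 : ℝ) ^ (l + 1) / b l := by
    rw [← sum_sub_distrib]
    apply sum_congr rfl
    intro l _
    ring
  have h5 : 1 / b k ≤ 1 / b0 := by
    have := hb k
    gcongr
  have h6 : (∑ l ∈ range (k + 1), 1 / b l) - 2 / b0 ≤
      ∑ l ∈ range k, (1 - (1 / 4 : ℝ) ^ (l + 1)) / b l := by
    rw [sum_range_succ, h4]
    have : (2 : ℝ) / b0 = 1 / b0 + 1 / b0 := by ring
    linarith
  calc (8 * C / 15) * (∑ l ∈ range (k + 1), 1 / b l - 2 / b0)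
      ≤ (8 * C / 15) * ∑ l ∈ range k, (1 - (1 / 4 : ℝ) ^ (l + 1)) / b l := by gcongr
    _ ≤ SS U k := h2
    _ ≤ SS U (k + 1) := h1

theorem TIME (hrate : RATE_stmt) : TIME_stmt := by
  intro R hR hbig P hP
  obtain ⟨-, -, -, ⟨hnt, -⟩, -, -, -, hlo, hhi, -, hgood, hE⟩ := hrate R hR hbig P hP
  have hR1 : 1 ≤ R := by omega
  have hRr : (10 : ℝ) ^ 13 ≤ R := by exact_mod_cast hbig
  have hM0 : (0 : ℝ) < P.M0 := by
    have := P.hM0
    have : 0 < P.M0 := by omega
    exact_mod_cast this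
  have hEpos : 0 < EE P := by linarith [show (0 : ℝ) < 10 ^ 6 by norm_num]
  have hntpos : 0 < nt P := by
    unfold EE at hEpos
    by_contra hneg
    push Not at hneg
    have : 8 * nt P * P.M0 / (15 * 401000) ≤ 0 := by
      apply div_nonpos_of_nonpos_of_nonneg
      · nlinarith
      · norm_num
    linarith
  set C := nt P * P.M0 with hC
  have hCpos : 0 < C := by positivity
  have hA : 8 * C / 15 = 401000 * EE P := by
    unfold EE
    rw [hC]
    ring
  have h9 : (9 : ℝ) / R ≤ 9 / 10 ^ 13 := by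
    gcongr
  have hc : (0 : ℝ) < 1 + 9 / R := by positivity
  have hup : ∀ g i, i ≤ P.m g → SS (UP P g) i ≤ (401000 * EE P) * (1 + 9 / R) * sb R g i := by
    intro g i hi
    have := SS_upper (U := UP P g) (b := fun l => (bb R g l : ℝ)) (m := P.m g) (C := C)
      (c := 1 + 9 / R) (fun l => bbR_pos hR1 g l) hCpos hc (by
        intro l hl
        have h1 := hlo g l hl
        have h2 : 2 * nt P * P.M0 * (1 + 9 / R) = 2 * C * (1 + 9 / R) := by rw [hC]; ring
        rw [h2] at h1
        exact h1) hi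
    rw [hA] at this
    exact this
  have hlow : ∀ g, (401000 * EE P) * (sb R g (P.m g) - 2 / (400 * (R : ℝ) ^ 2)) ≤
      SS (UP P g) (P.m g) := by
    intro g
    have := SS_lower (U := UP P g) (b := fun l => (bb R g l : ℝ)) (m := P.m g) (C := C)
      (b0 := 400 * (R : ℝ) ^ 2) (by positivity) (by
        intro l
        have := bb_lower hR1 g l
        exact_mod_cast this) hCpos (fun l hl => (hgood g).pos l hl) (by
        intro l hl
        have h1 := hhi g l hl
        have h2 : 2 * nt P * P.M0 = 2 * C := by rw [hC]; ring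
        rw [h2] at h1
        exact h1) (P.hm g)
    rw [hA] at this
    exact this
  have hmf : P.m false = mt R false := by rw [hP]; rfl
  have hmt : P.m true = mt R true := by rw [hP]; rfl
  obtain ⟨hsf, hst⟩ := sb_m hR1
  have hsb : ∀ g i, 0 ≤ sb R g i := by
    intro g i
    unfold sb
    exact sum_nonneg fun l _ => by have := bbR_pos hR1 g l; positivity
  have hR2 : 2 / (400 * (R : ℝ) ^ 2) ≤ 1 / 10 ^ 20 := by
    rw [div_le_div_iff₀ (by positivity) (by positivity)]
    nlinarith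
  refine ⟨?_, ?_, ?_, ?_, ?_⟩
  · intro i hi
    have h1 := hup false i hi
    have h2 : sb R false i ≤ 1002.5 / 401000 := by
      rw [← hsf]
      apply sb_mono hR1
      rw [← hmf]; exact hi
    calc SS (UP P false) i ≤ (401000 * EE P) * (1 + 9 / R) * sb R false i := h1
      _ ≤ (401000 * EE P) * (1 + 9 / 10 ^ 13) * (1002.5 / 401000) := by
          gcongr
          exact hsb _ _
      _ ≤ 1002.51 * EE P := by nlinarith
  · intro i hi
    have h1 := hup true i hi
    have h2 : sb R true i ≤ 1003 / 401000 := by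
      rw [← hst]
      apply sb_mono hR1
      rw [← hmt]; exact hi
    calc SS (UP P true) i ≤ (401000 * EE P) * (1 + 9 / R) * sb R true i := h1
      _ ≤ (401000 * EE P) * (1 + 9 / 10 ^ 13) * (1003 / 401000) := by
          gcongr
          exact hsb _ _
      _ ≤ 1003.01 * EE P := by nlinarith
  · intro i hi i' hi' hii
    have h1 := hup true i hi
    have h1' := hup true i' hi'
    have h2 := sb_pair hR (by rw [← hmt]; exact hi) (by rw [← hmt]; exact hi') hii
    calc SS (UP P true) i + SS (UP P true) i' ≤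
          (401000 * EE P) * (1 + 9 / R) * sb R true i +
          (401000 * EE P) * (1 + 9 / R) * sb R true i' := add_le_add h1 h1'
      _ = (401000 * EE P) * (1 + 9 / R) * (sb R true i + sb R true i') := by ring
      _ ≤ (401000 * EE P) * (1 + 9 / 10 ^ 13) * (2005.0625 / 401000) := by
          gcongr
          exact add_nonneg (hsb _ _) (hsb _ _)
      _ ≤ 2005.08 * EE P := by nlinarith
  · have h1 := hlow false
    rw [hmf, hsf] at h1
    rw [hmf]
    calc 1002.49 * EE P ≤ (401000 * EE P) * (1002.5 / 401000 - 1 / 10 ^ 20) := by nlinarith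
      _ ≤ (401000 * EE P) * (1002.5 / 401000 - 2 / (400 * (R : ℝ) ^ 2)) := by gcongr
      _ ≤ _ := h1
  · have h1 := hlow true
    rw [hmt, hst] at h1
    rw [hmt]
    calc 1002.99 * EE P ≤ (401000 * EE P) * (1003 / 401000 - 1 / 10 ^ 20) := by nlinarith
      _ ≤ (401000 * EE P) * (1003 / 401000 - 2 / (400 * (R : ℝ) ^ 2)) := by gcongr
      _ ≤ _ := h1

end H72C
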