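import Pool.Agent.Helper72_Cut.Size
import Pool.Agent.Helper72_Cut.Time
import Pool.Agent.Helper72_Cut.Final
import Pool.Agent.Helper16_Cut.Lad
import Pool.Agent.Helper62_Cut.Asm
import Pool.Agent.Helper62_Cut.MIXL
import Pool.Agent.Helper62_Cut.DEC
import Pool.Agent.Helper59_CW.U
import Pool.Agent.Helper59_CW.U4
import Pool.Agent.Helper59_CW.D
import Pool.Agent.Helper91_Cut.MW
import Pool.Agent.Helper91_CW.UBProof
import Pool.Agent.Helper3_CW.Small
import Pool.Agent.Helper22_Cut.Deg
import Pool.Agent.Helper22_Cut.Lev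
import Pool.Agent.Helper22_Cut.Wts
import Pool.Agent.Helper98_Cut.Cut
import Pool.Agent.Helper98_Cut.Ladl
import Pool.Agent.Helper72_Cut.Law

/-!
# Assembly of all modules
-/

namespace H72C

open Finset Equiv Pool.Agent.Helper91_CW

theorem assembly (hrate : RATE_stmt) (hladc : LADC_stmt) : FINAL_stmt := by
  have hadj : ADJ_stmt := H72C.Helper22.adj
  have hdeg : DEG_stmt := H72C.Helper22.deg
  have hlev : LEV_stmt := H72C.Helper22.lev
  have hwts : WTS_stmt := H72C.Helper22.wts
  have hsum : SUM_stmt := Pool.Agent.Helper3_CW.SUM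
  have hpair : PAIR_stmt := Pool.Agent.Helper3_CW.PAIR
  have hmixu : MIXU_stmt := Pool.Agent.Helper3_CW.MIXU
  have htwin : TWIN_stmt := Pool.Agent.Helper3_CW.TWIN
  have hcell : CELL_stmt := Pool.Agent.Helper3_CW.CELL
  have hconn : CONN_stmt := Pool.Agent.Helper3_CW.CONN
  have hfree : FREE_stmt := Pool.Agent.Helper3_CW.FREE hwts
  have hladl : LADL_stmt := H98C.ladl
  have hlaw : LAW_stmt := H72C.LawFix.law_stmt
  have hmono : MONO_stmt := H59CW.MONO hlaw
  have hcut : CUT_stmt := H98C.cut hmono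
  have hmixl : MIXL_stmt := MIXL
  have hdec : DEC_stmt := DEC hadj hdeg
  have hsize : SIZE_stmt := SIZE
  have htime : TIME_stmt := TIME hrate
  have hroot : ROOT_stmt := ROOT hrate htime hladl
  have hmw : MW_stmt := H72C.H91.mw_thm hlev hsum hpair hwts hrate hladc
  have h1 : U1_stmt := H72C.H91.u1_thm hwts hrate
  have h2 : U2_stmt := H72C.H91.u2_thm hpair hwts hsize hrate hmw
  have h3 : U3_stmt := H72C.H91.u3_thm hsum hwts hsize hrate hmw
  have h4 : U4_stmt := H59CW.U4 hwts hlev hsum hcell hpair hsize hrate htime hladc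
  have h5 : U5_stmt := H59CW.U5 hwts hlev hsum hsize hrate hladc
  have h67 : U67_stmt := H59CW.U67 hsize hrate hmw
  have hupper : UPPER_stmt := UPPER Pool.Agent.Helper91_CW.ub hwts htwin h1 h2 h3 h4 h5 h67 hrate
  have hfup : FUP_stmt := FUP hmixu hdec hwts hrate hupper
  have hflow : FLOW_stmt := FLOW hmixl hdec hwts hrate hfree hlev hroot hsum hsize
  exact FINAL hcut hlaw hconn hrate hfup hflow

end H72C
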