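import Pool.Agent.Helper91_CW.UB

/-!
# Squad MP_1dbb29_pr : cutoff fails for transposition walks induced by connected graphs

Definitions of the graph / one-card / assembly part (helper72).  The algebraic part (abstract upper
bound) is in `Helper91_CW`.
-/

namespace H72C

open Finset Equiv Pool.Agent.Helper91_CW

/-! ## Step measure and one-card kernel for general weights -/

section A
variable {V : Type} [Fintype V] [DecidableEq V]

/-- total probability of a move (`w x y` = probability that the cards at `x`, `y` are exchanged) -/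
noncomputable def wtot (w : V → V → ℝ) : ℝ := (1 / 2) * ∑ x, ∑ y, w x y

/-- the step measure: with probability `w x y` exchange the cards at `x` and `y` -/
noncomputable def nu (w : V → V → ℝ) : Alg (Perm V) :=
  (1 - wtot w) • (1 : Alg (Perm V)) + (1 / 2 : ℝ) • ∑ x, ∑ y, w x y • pt (swap x y)

/-- one-card kernel (no killing) -/
noncomputable def pk (w : V → V → ℝ) (f : V → ℝ) (x : V) : ℝ :=
  (1 - ∑ y, w x y) * f x + ∑ y, w x y * f y

/-- nonnegative coefficients -/
def NN (f : Alg (Perm V)) : Prop := ∀ g, 0 ≤ f.coeff g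

/-- probability measures -/
def IsProb (f : Alg (Perm V)) : Prop := NN f ∧ ∑ g : Perm V, f.coeff g = 1

end A

/-! ## Birth-death chains on levels -/

/-- kernel on levels `{y,...,m}`: up rate `U j`, down rate `U (j-1) / 4`; killed outside -/
noncomputable def BD (U : ℕ → ℝ) (m y : ℕ) (φ : ℕ → ℝ) (j : ℕ) : ℝ :=
  if y ≤ j ∧ j ≤ m then
    (1 - U j - (if j = 0 then 0 else U (j - 1) / 4)) * φ j
      + (if j < m then U j * φ (j + 1) else 0)
      + (if y < j then U (j - 1) / 4 * φ (j - 1) else 0)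
  else 0

/-- iterates on `φ` restricted to `{y,...,m}` -/
noncomputable def bIt (U : ℕ → ℝ) (m y : ℕ) (φ : ℕ → ℝ) (t : ℕ) : ℕ → ℝ :=
  (BD U m y)^[t] (fun j => if y ≤ j ∧ j ≤ m then φ j else 0)

/-- natural time from level `j` to level `j+1` (solves `L S = 1`) -/
noncomputable def sS (U : ℕ → ℝ) (j : ℕ) : ℝ := (4 / 3) * (1 - (1 / 4) ^ (j + 1)) / U j

/-- natural time from level `0` to level `i` -/
noncomputable def SS (U : ℕ → ℝ) (i : ℕ) : ℝ := ∑ l ∈ range i, sS U l

/-- hypotheses on the rates -/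
structure GoodU (U : ℕ → ℝ) (m : ℕ) : Prop where
  pos : ∀ j, j ≤ m → 0 < U j
  le : ∀ j, j ≤ m → U j ≤ 1 / 2
  mono : ∀ i j, i ≤ j → j ≤ m → U i ≤ (5 / 4) * U j

/-! ## The graph -/

/-- parameters of the graph -/
structure Par where
  /-- number of cells per level -/
  M0 : ℕ
  /-- top level of gadget `g` -/
  m : Bool → ℕ
  /-- number of admissible offsets between levels `j` and `j+1` -/
  w : Bool → ℕ → ℕ
  /-- size of the main clique -/
  Mn : ℕ
  hM0 : 3 ≤ M0
  hm : ∀ g, 1 ≤ m g
  hw1 : ∀ g j, 1 ≤ w g j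
  hw2 : ∀ g j, w g j ≤ M0
  hMn : 2 ≤ Mn

instance (P : Par) : NeZero P.M0 := ⟨by have := P.hM0; omega⟩

/-- vertices of the gadgets: level `j ≤ m g` of gadget `g` is `ZMod M0 × Fin (4^j)` -/
abbrev Hx (P : Par) : Type := Σ g : Bool, Σ j : Fin (P.m g + 1), ZMod P.M0 × Fin (4 ^ (j : ℕ))

/-- vertices: gadgets and main clique -/
abbrev Vx (P : Par) : Type := Hx P ⊕ Fin P.Mn

/-- gadget of a gadget vertex -/
def gd (P : Par) (x : Hx P) : Bool := x.1

/-- level of a gadget vertex -/
def lv (P : Par) (x : Hx P) : ℕ := x.2.1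

/-- cell of a gadget vertex -/
def ce (P : Par) (x : Hx P) : ZMod P.M0 := x.2.2.1

/-- index in the cell -/
def ix (P : Par) (x : Hx P) : ℕ := x.2.2.2

/-- the two special root positions: `a = a' = 0` or `a = a' = 1` -/
def same01 {n : ℕ} (a a' : ZMod n) : Prop := (a = 0 ∧ a' = 0) ∨ (a = 1 ∧ a' = 1)

/-- `{a, a'} = {0, 1}` -/
def diff01 {n : ℕ} (a a' : ZMod n) : Prop := (a = 0 ∧ a' = 1) ∨ (a = 1 ∧ a' = 0)

/-- adjacency inside one gadget -/
def adjG (P : Par) (x y : Hx P) : Prop :=
  gd P x = gd P y ∧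
    ((lv P x = lv P y ∧ ¬ (ce P x = ce P y ∧ ix P x = ix P y) ∧
        ¬ (lv P x = 0 ∧ diff01 (ce P x) (ce P y))) ∨
      (lv P y = lv P x + 1 ∧ ZMod.val (ce P y - ce P x) < P.w (gd P x) (lv P x)) ∨
      (lv P x = lv P y + 1 ∧ ZMod.val (ce P x - ce P y) < P.w (gd P x) (lv P y)))

/-- the two cross edges -/
def crossR (P : Par) (x y : Hx P) : Prop :=
  gd P x ≠ gd P y ∧ lv P x = 0 ∧ lv P y = 0 ∧ same01 (ce P x) (ce P y)

/-- adjacency -/
def adjR (P : Par) : Vx P → Vx P → Prop
  | Sum.inl x, Sum.inl y => adjG P x y ∨ crossR P x y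
  | Sum.inl x, Sum.inr _ => lv P x = P.m (gd P x)
  | Sum.inr _, Sum.inl y => lv P y = P.m (gd P y)
  | Sum.inr i, Sum.inr i' => i ≠ i'

/-- degree of the vertices of the main clique -/
def dM (P : Par) : ℕ := P.Mn - 1 + ∑ g : Bool, P.M0 * 4 ^ P.m g

/-- degree of the vertices of level `j` of gadget `g` -/
def dL (P : Par) (g : Bool) (j : ℕ) : ℕ :=
  P.M0 * 4 ^ j - 1 + (if j < P.m g then P.w g j * 4 ^ (j + 1) else P.Mn) +
    (if 0 < j then P.w g (j - 1) * 4 ^ (j - 1) else 0)

/-- degree as a function of the vertex -/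
def dg (P : Par) : Vx P → ℕ
  | Sum.inl x => dL P (gd P x) (lv P x)
  | Sum.inr _ => dM P

/-- number of vertices -/
noncomputable def nn (P : Par) : ℝ := (Fintype.card (Vx P) : ℝ)

/-- probability of one given cross edge -/
noncomputable def p1 (P : Par) : ℝ :=
  (1 / (2 * nn P)) * (1 / (dL P false 0 : ℝ) + 1 / (dL P true 0 : ℝ))

/-- `n (1-p)`, `p = 2 p1` = probability of using a cross edge -/
noncomputable def nt (P : Par) : ℝ := nn P * (1 - 2 * p1 P)

open Classical in
/-- weights of the walk without cross edges (conditioned), inside the gadgets -/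
noncomputable def wH (P : Par) (x y : Hx P) : ℝ :=
  if adjG P x y then
    (1 / (2 * nt P)) * (1 / (dL P (gd P x) (lv P x) : ℝ) + 1 / (dL P (gd P y) (lv P y) : ℝ)) else 0

/-- weight between a gadget vertex and a vertex of the main clique -/
noncomputable def qH (P : Par) (x : Hx P) : ℝ :=
  if lv P x = P.m (gd P x) then
    (1 / (2 * nt P)) * (1 / (dL P (gd P x) (lv P x) : ℝ) + 1 / (dM P : ℝ)) else 0

/-- weight between two vertices of the main clique -/
noncomputable def rH (P : Par) : ℝ := (1 / (2 * nt P)) * (2 / (dM P : ℝ))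

/-- the same weights on all vertices -/
noncomputable def wX (P : Par) : Vx P → Vx P → ℝ
  | Sum.inl x, Sum.inl y => wH P x y
  | Sum.inl x, Sum.inr _ => qH P x
  | Sum.inr _, Sum.inl y => qH P y
  | Sum.inr i, Sum.inr i' => if i = i' then 0 else rH P

/-- up rate from level `j` of gadget `g` -/
noncomputable def UP (P : Par) (g : Bool) (j : ℕ) : ℝ :=
  if j < P.m g then
    (P.w g j * 4 ^ (j + 1) : ℝ) *
      ((1 / (2 * nt P)) * (1 / (dL P g j : ℝ) + 1 / (dL P g (j + 1) : ℝ)))
  else (P.Mn : ℝ) * ((1 / (2 * nt P)) * (1 / (dL P g (P.m g) : ℝ) + 1 / (dM P : ℝ)))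

/-- code of the cell of a vertex -/
def cellN (P : Par) (x : Hx P) : ℕ :=
  2 * (P.M0 * lv P x + ZMod.val (ce P x)) + (if gd P x then 1 else 0)

/-! ## Law of the walk, cutoff -/

open Classical in
/-- law after `t` moves of the lazy walk induced by `G`, started from the identity:
with probability 1/2 nothing happens; otherwise a uniform vertex `v` and a uniform neighbour `w`
of `v` are chosen and the cards in positions `v` and `w` are exchanged -/
noncomputable def law {n : ℕ} (G : SimpleGraph (Fin n)) : ℕ → Perm (Fin n) → ℝ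
  | 0 => fun σ => if σ = 1 then 1 else 0
  | t + 1 => fun σ => (1 / 2) * law G t σ + (1 / 2) * ∑ v : Fin n, ∑ w : Fin n,
      if G.Adj v w then (1 / (n : ℝ)) * (1 / (G.degree v : ℝ)) * law G t (σ * swap v w) else 0

/-- total variation distance to the uniform distribution after `t` moves -/
noncomputable def tvd {n : ℕ} (G : SimpleGraph (Fin n)) (t : ℕ) : ℝ :=
  (1 / 2) * ∑ σ : Perm (Fin n), |law G t σ - 1 / (n.factorial : ℝ)|

/-- the sequence `G` has a sharp threshold -/
def HasCutoff (G : (n : ℕ) → SimpleGraph (Fin n)) : Prop :=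
  ∃ (a b : ℕ → ℝ) (f : ℝ → ℝ), (∀ n, 2 ≤ n → 0 < a n ∧ 0 < b n) ∧
    Filter.Tendsto (fun n => b n / a n) Filter.atTop (nhds 0) ∧
    (∀ c, 0 ≤ f c ∧ f c ≤ 1) ∧
    Filter.Tendsto f Filter.atTop (nhds 0) ∧ Filter.Tendsto f Filter.atBot (nhds 1) ∧
    ∀ c : ℝ, Filter.Tendsto (fun n => tvd (G n) ⌊a n + c * b n⌋₊) Filter.atTop (nhds (f c))

open Classical in
/-- transition weights of the lazy walk induced by a graph -/
noncomputable def wG {V : Type} [Fintype V] (G : SimpleGraph V) (x y : V) : ℝ :=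
  if G.Adj x y then
    (1 / (2 * (Fintype.card V : ℝ))) * (1 / (G.degree x : ℝ) + 1 / (G.degree y : ℝ)) else 0

/-- the graph -/
def gr (P : Par) : SimpleGraph (Vx P) := SimpleGraph.fromRel (adjR P)

end H72C
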