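import Pool.Agent.Helper72_Cut.Statements

/-!
# The parameters
-/

namespace H72C

open Finset Equiv Pool.Agent.Helper91_CW

/-- end of the core -/
def Jj (R : ℕ) : ℕ := R * (2 ^ R - 1)

/-- offsets in the main part -/
def Ww (R : ℕ) : ℕ := 401000 * 4 ^ R

def kg (g : Bool) : ℕ := if g then 401 else 400

/-- basic number of offsets -/
def bb (R : ℕ) (g : Bool) (j : ℕ) : ℕ :=
  if j < Jj R then kg g * R ^ 2 * 2 ^ (Nat.log 2 (j / R + 1)) else Ww R

def mt (R : ℕ) (g : Bool) : ℕ := if g then Jj R + 3 * 4 ^ R else Jj R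

def wt (R : ℕ) (g : Bool) (j : ℕ) : ℕ := if j + 1 = mt R g then 2 * bb R g j else bb R g j

lemma kg_le (g : Bool) : kg g ≤ 401 := by cases g <;> simp [kg]
lemma le_kg (g : Bool) : 400 ≤ kg g := by cases g <;> simp [kg]

lemma log_core {R j : ℕ} (hR : 1 ≤ R) (hj : j < Jj R) : Nat.log 2 (j / R + 1) + 1 ≤ R := by
  unfold Jj at hj
  have h1 : j / R < 2 ^ R - 1 := by
    rw [Nat.div_lt_iff_lt_mul (by omega)]
    rw [mul_comm]; exact hj
  have h2 : Nat.log 2 (j / R + 1) < R := by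
    apply Nat.log_lt_of_lt_pow (Nat.succ_ne_zero _)
    have : 1 ≤ 2 ^ R := Nat.one_le_two_pow
    generalize j / R = u at *
    omega
  omega

lemma bb_le_Ww {R : ℕ} (hR : 1 ≤ R) (g : Bool) (j : ℕ) : bb R g j ≤ Ww R := by
  unfold bb
  split_ifs with h
  · have h1 := log_core hR h
    have h2 : 2 ^ (Nat.log 2 (j / R + 1)) ≤ 2 ^ R := Nat.pow_le_pow_right (by norm_num) (by omega)
    have h3 : R ^ 2 ≤ 400 * 2 ^ R := by
      have h4 : ∀ n : ℕ, n ^ 2 ≤ 400 * 2 ^ n := by
        intro n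
        induction n with
        | zero => norm_num
        | succ k ih =>
          have h5 : k < 2 ^ k := Nat.lt_two_pow_self
          have : 2 ^ (k + 1) = 2 * 2 ^ k := by ring
          rw [this]
          nlinarith
      exact h4 R
    unfold Ww
    have h5 : (4 : ℕ) ^ R = 2 ^ R * 2 ^ R := by
      rw [← mul_pow]; norm_num
    rw [h5]
    calc kg g * R ^ 2 * 2 ^ (Nat.log 2 (j / R + 1)) ≤ 401 * (400 * 2 ^ R) * 2 ^ R := by
          gcongr
          exact kg_le g
      _ ≤ 401000 * (2 ^ R * 2 ^ R) := by nlinarith [Nat.one_le_two_pow (n := R)]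
  · exact le_rfl

lemma bb_pos {R : ℕ} (hR : 1 ≤ R) (g : Bool) (j : ℕ) : 400 * R ^ 2 ≤ bb R g j ∨ j ≥ Jj R := by
  unfold bb
  split_ifs with h
  · left
    calc 400 * R ^ 2 = 400 * R ^ 2 * 1 := by ring
      _ ≤ kg g * R ^ 2 * 2 ^ (Nat.log 2 (j / R + 1)) := by
          gcongr
          · exact le_kg g
          · exact Nat.one_le_two_pow
  · right; omega

lemma Rsq_le {R : ℕ} (hR : 1 ≤ R) : 400 * R ^ 2 ≤ Ww R := by
  unfold Ww
  have h4 : ∀ n : ℕ, n ^ 2 ≤ 4 ^ n := by
    intro n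
    have h5 : n < 2 ^ n := Nat.lt_two_pow_self
    calc n ^ 2 ≤ (2 ^ n) ^ 2 := Nat.pow_le_pow_left h5.le 2
      _ = 4 ^ n := by rw [← pow_mul, mul_comm, pow_mul]; norm_num
  have := h4 R
  nlinarith

lemma bb_lower {R : ℕ} (hR : 1 ≤ R) (g : Bool) (j : ℕ) : 400 * R ^ 2 ≤ bb R g j := by
  rcases bb_pos hR g j with h | h
  · exact h
  · unfold bb
    rw [if_neg (by omega)]
    exact Rsq_le hR

lemma bb_mono {R : ℕ} (hR : 1 ≤ R) (g : Bool) {i j : ℕ} (hij : i ≤ j) : bb R g i ≤ bb R g j := by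
  by_cases hj : j < Jj R
  · have hi : i < Jj R := by omega
    unfold bb
    rw [if_pos hi, if_pos hj]
    gcongr
    norm_num
  · have : bb R g j = Ww R := by unfold bb; rw [if_neg hj]
    rw [this]
    exact bb_le_Ww hR g i

/-- a lower bound for `bb` that grows linearly in the level -/
lemma bb_lin {R : ℕ} (hR : 1 ≤ R) (g : Bool) {j : ℕ} (hj : j < Jj R) :
    200 * R * j ≤ bb R g j := by
  unfold bb
  rw [if_pos hj]
  set b := Nat.log 2 (j / R + 1) with hb
  have h1 : j / R + 1 < 2 ^ (b + 1) := Nat.lt_pow_succ_log_self (by norm_num) _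
  have h2 : j < R * (j / R + 1) := by
    have := Nat.div_add_mod j R
    have h3 : j % R < R := Nat.mod_lt _ (by omega)
    nlinarith
  have h3 : j ≤ R * 2 ^ (b + 1) := by
    calc j ≤ R * (j / R + 1) := h2.le
      _ ≤ R * 2 ^ (b + 1) := by gcongr
  calc 200 * R * j ≤ 200 * R * (R * 2 ^ (b + 1)) := by gcongr
    _ = 400 * R ^ 2 * 2 ^ b := by ring
    _ ≤ kg g * R ^ 2 * 2 ^ b := by
        gcongr
        exact le_kg g

/-- the sum over the core -/
lemma sum_core_aux {R : ℕ} (hR : 1 ≤ R) (B : ℕ) :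
    ∑ j ∈ range (R * (2 ^ B - 1)), (1 : ℝ) / 2 ^ (Nat.log 2 (j / R + 1)) = R * B := by
  induction B with
  | zero => simp
  | succ B ih =>
    have h1 : R * (2 ^ (B + 1) - 1) = R * (2 ^ B - 1) + R * 2 ^ B := by
      have : 1 ≤ 2 ^ B := Nat.one_le_two_pow
      have h2 : 2 ^ (B + 1) = 2 * 2 ^ B := by ring
      rw [h2, ← mul_add]
      congr 1
      omega
    rw [h1, sum_range_add, ih]
    have h2 : ∀ x ∈ range (R * 2 ^ B), (1 : ℝ) / 2 ^ (Nat.log 2 ((R * (2 ^ B - 1) + x) / R + 1)) =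
        1 / 2 ^ B := by
      intro x hx
      rw [mem_range] at hx
      have h3 : (R * (2 ^ B - 1) + x) / R = 2 ^ B - 1 + x / R := by
        rw [Nat.mul_add_div (by omega)]
      have h4 : x / R < 2 ^ B := by
        rw [Nat.div_lt_iff_lt_mul (by omega), mul_comm]
        exact hx
      have h5 : 1 ≤ 2 ^ B := Nat.one_le_two_pow
      have h6 : Nat.log 2 ((R * (2 ^ B - 1) + x) / R + 1) = B := by
        rw [h3]
        generalize x / R = u at *
        apply Nat.log_eq_of_pow_le_of_lt_pow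
        · omega
        · have : 2 ^ (B + 1) = 2 * 2 ^ B := by ring
          omega
      rw [h6]
    rw [sum_congr rfl h2]
    simp only [sum_const, card_range, nsmul_eq_mul]
    push_cast
    field_simp

lemma sum_core {R : ℕ} (hR : 1 ≤ R) (g : Bool) :
    ∑ j ∈ range (Jj R), (1 : ℝ) / bb R g j = 1 / kg g := by
  have h1 : ∀ j ∈ range (Jj R), (1 : ℝ) / bb R g j =
      (1 / (kg g * R ^ 2)) * (1 / 2 ^ (Nat.log 2 (j / R + 1))) := by
    intro j hj
    rw [mem_range] at hj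
    unfold bb
    rw [if_pos hj]
    push_cast
    field_simp
  rw [sum_congr rfl h1, ← mul_sum]
  unfold Jj
  rw [sum_core_aux hR R]
  have h2 : (kg g : ℝ) ≠ 0 := by
    have := le_kg g
    have : (400 : ℝ) ≤ kg g := by exact_mod_cast this
    positivity
  have h3 : (R : ℝ) ≠ 0 := by positivity
  field_simp

/-- `Σ_{l<i} 1 / b_l` -/
noncomputable def sb (R : ℕ) (g : Bool) (i : ℕ) : ℝ := ∑ l ∈ range i, (1 : ℝ) / bb R g l

lemma bbR_pos {R : ℕ} (hR : 1 ≤ R) (g : Bool) (j : ℕ) : (0 : ℝ) < bb R g j := by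
  have h := bb_lower hR g j
  have : 0 < bb R g j := by
    have : 0 < 400 * R ^ 2 := by positivity
    omega
  exact_mod_cast this

lemma sb_mono {R : ℕ} (hR : 1 ≤ R) (g : Bool) {i j : ℕ} (hij : i ≤ j) : sb R g i ≤ sb R g j := by
  unfold sb
  apply sum_le_sum_of_subset_of_nonneg
  · exact range_mono hij
  · intro l _ _
    have := bbR_pos hR g l
    positivity

lemma sb_core {R : ℕ} (hR : 1 ≤ R) (g : Bool) {i : ℕ} (hi : i ≤ Jj R) : sb R g i ≤ 1 / kg g := by
  calc sb R g i ≤ sb R g (Jj R) := sb_mono hR g hi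
    _ = 1 / kg g := sum_core hR g

lemma sb_main {R : ℕ} (hR : 1 ≤ R) (g : Bool) (i : ℕ) :
    sb R g (Jj R + i) = 1 / kg g + i / Ww R := by
  unfold sb
  rw [sum_range_add, sum_core hR g]
  congr 1
  have : ∀ x ∈ range i, (1 : ℝ) / bb R g (Jj R + x) = 1 / Ww R := by
    intro x _
    unfold bb
    rw [if_neg (by omega)]
  rw [sum_congr rfl this]
  simp
  ring

lemma Ww_pos (R : ℕ) : 0 < Ww R := by unfold Ww; positivity

lemma sb_le {R : ℕ} (hR : 1 ≤ R) (g : Bool) (i : ℕ) :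
    sb R g i ≤ 1 / kg g + ((i - Jj R : ℕ) : ℝ) / Ww R := by
  rcases le_total i (Jj R) with h | h
  · have h1 := sb_core hR g h
    have h2 : (0 : ℝ) ≤ ((i - Jj R : ℕ) : ℝ) / Ww R := by positivity
    linarith
  · obtain ⟨k, rfl⟩ := Nat.exists_eq_add_of_le h
    rw [sb_main hR g k]
    simp

lemma sb_m {R : ℕ} (hR : 1 ≤ R) : sb R false (mt R false) = 1002.5 / 401000 ∧
    sb R true (mt R true) = 1003 / 401000 := by
  constructor
  · have := sum_core hR false
    unfold sb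
    simp only [mt]
    simp only [Bool.false_eq_true, if_false]
    rw [this]
    simp [kg]
    norm_num
  · simp only [mt, if_true]
    rw [sb_main hR true]
    simp only [kg, if_true, Ww]
    push_cast
    have : (4 : ℝ) ^ R ≠ 0 := by positivity
    field_simp
    ring

/-- pairs of levels whose sum is at most `5Q + Q/16` -/
lemma sb_pair {R : ℕ} (hR : 2 ≤ R) {i i' : ℕ} (hi : i ≤ mt R true) (hi' : i' ≤ mt R true)
    (h : i + i' ≤ 5 * 4 ^ R + 4 ^ R / 16) :
    sb R true i + sb R true i' ≤ 2005.0625 / 401000 := by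
  have h1 := sb_le (by omega : 1 ≤ R) true i
  have h2 := sb_le (by omega : 1 ≤ R) true i'
  have hk : (kg true : ℝ) = 401 := by simp [kg]
  rw [hk] at h1 h2
  have hW : (Ww R : ℝ) = 401000 * 4 ^ R := by unfold Ww; push_cast; ring
  have h4 : (0 : ℝ) < 4 ^ R := by positivity
  have h16 : (16 * (4 ^ R / 16) : ℕ) ≤ 4 ^ R := Nat.mul_div_le _ _
  have hsum : (16 : ℝ) * (((i - Jj R : ℕ) : ℝ) + ((i' - Jj R : ℕ) : ℝ)) ≤ 81 * 4 ^ R := by
    have : 16 * ((i - Jj R) + (i' - Jj R)) ≤ 81 * 4 ^ R := by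
      unfold mt at hi hi'
      simp only [if_true] at hi hi'
      by_cases h5 : i ≤ Jj R
      · omega
      · by_cases h6 : i' ≤ Jj R
        · omega
        · omega
    exact_mod_cast this
  have h5 : ((i - Jj R : ℕ) : ℝ) / Ww R + ((i' - Jj R : ℕ) : ℝ) / Ww R ≤ 5.0625 / 401000 := by
    rw [← add_div, hW, div_le_div_iff₀ (by positivity) (by positivity)]
    nlinarith
  have h6 : (1 : ℝ) / 401 = 1000 / 401000 := by norm_num
  rw [h6] at h1 h2
  have h7 : (2005.0625 : ℝ) / 401000 = 1000 / 401000 + 1000 / 401000 + 5.0625 / 401000 := by norm_num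
  linarith

/-- the parameters -/
def PR (R : ℕ) (hR : 2 ≤ R) : Par where
  M0 := R * Ww R
  m := mt R
  w := wt R
  Mn := 4 ^ (5 * 4 ^ R)
  hM0 := by
    have : 401000 * 1 ≤ Ww R := by
      unfold Ww
      exact Nat.mul_le_mul_left _ (Nat.one_le_pow _ _ (by norm_num))
    nlinarith
  hm := by
    intro g
    have h1 : 1 ≤ Jj R := by
      unfold Jj
      have : 2 ^ 1 ≤ 2 ^ R := Nat.pow_le_pow_right (by norm_num) (by omega)
      have h2 : 1 ≤ 2 ^ R - 1 := by omega
      nlinarith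
    unfold mt
    split_ifs <;> omega
  hw1 := by
    intro g j
    have h1 := bb_lower (by omega : 1 ≤ R) g j
    have h2 : 1 ≤ 400 * R ^ 2 := by nlinarith
    unfold wt
    split_ifs <;> omega
  hw2 := by
    intro g j
    have h1 := bb_le_Ww (by omega : 1 ≤ R) g j
    have h2 := Ww_pos R
    have h3 : 2 * Ww R ≤ R * Ww R := Nat.mul_le_mul_right _ hR
    unfold wt
    split_ifs <;> omega
  hMn := by
    have : 4 ^ 1 ≤ 4 ^ (5 * 4 ^ R) := by
      apply Nat.pow_le_pow_right (by norm_num)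
      have : 1 ≤ 4 ^ R := Nat.one_le_pow _ _ (by norm_num)
      omega
    omega

end H72C
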