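import Pool.Agent.Helper72_Cut.AsmStmts

/-!
# Z0 : sizes
-/

namespace H72C

open Finset Equiv Pool.Agent.Helper91_CW

lemma big_two_pow {R : ℕ} (hR : 10 ^ 13 ≤ R) : 10 ^ 6 * R ≤ 2 ^ R := by
  obtain ⟨k, rfl⟩ : ∃ k, R = 30 + k := ⟨R - 30, by omega⟩
  have h1 : k + 1 ≤ 2 ^ k := Nat.lt_two_pow_self
  rw [pow_add]
  have h2 : (10 : ℕ) ^ 9 ≤ 2 ^ 30 := by norm_num
  calc 10 ^ 6 * (30 + k) ≤ 10 ^ 9 * (k + 1) := by omega
    _ ≤ 2 ^ 30 * 2 ^ k := Nat.mul_le_mul h2 h1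

theorem SIZE : SIZE_stmt := by
  intro R hR
  have h1 := big_two_pow hR
  have h2 : 1 ≤ 2 ^ R := Nat.one_le_two_pow
  have h4 : (4 : ℕ) ^ R = 2 ^ R * 2 ^ R := by
    rw [← mul_pow]; norm_num
  have ha : 10 ^ 6 * Jj R ≤ 4 ^ R := by
    unfold Jj
    rw [h4]
    calc 10 ^ 6 * (R * (2 ^ R - 1)) = (10 ^ 6 * R) * (2 ^ R - 1) := by ring
      _ ≤ 2 ^ R * 2 ^ R := Nat.mul_le_mul h1 (Nat.sub_le _ _)
  have hb : 10 ^ 6 * R ≤ 4 ^ R := by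
    rw [h4]
    nlinarith
  have hc : 1 ≤ Jj R := by
    unfold Jj
    have h3 : 2 ^ 1 ≤ 2 ^ R := Nat.pow_le_pow_right (by norm_num) (by omega)
    have h5 : 1 ≤ 2 ^ R - 1 := by omega
    calc 1 = 1 * 1 := rfl
      _ ≤ R * (2 ^ R - 1) := Nat.mul_le_mul (by omega) h5
  have hd : R * Ww R ≤ 4 ^ (3 * R) := by
    unfold Ww
    have h5 : (4 : ℕ) ^ (3 * R) = 4 ^ R * 4 ^ R * 4 ^ R := by
      rw [← pow_add, ← pow_add]; congr 1; ring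
    rw [h5]
    calc R * (401000 * 4 ^ R) = (401000 * R) * 4 ^ R := by ring
      _ ≤ (4 ^ R * 4 ^ R) * 4 ^ R := by
          apply Nat.mul_le_mul_right
          have : 1 ≤ 4 ^ R := Nat.one_le_pow _ _ (by norm_num)
          calc 401000 * R ≤ 10 ^ 6 * R := by omega
            _ ≤ 4 ^ R := hb
            _ ≤ 4 ^ R * 4 ^ R := by nlinarith
      _ = 4 ^ R * 4 ^ R * 4 ^ R := by ring
  refine ⟨ha, hb, hc, hd, ?_, ?_⟩
  · refine le_trans hd (Nat.pow_le_pow_right (by norm_num) ?_)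
    generalize (4 : ℕ) ^ R = x at *
    omega
  · apply Nat.pow_le_pow_right (by norm_num)
    generalize (4 : ℕ) ^ R = x at *
    generalize Jj R = y at *
    omega

end H72C
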