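import Pool.Agent.Helper72_Cut.Defs

/-!
# Squad MP_1dbb29_pr : statements of the modules B, C, D (all as `Prop`s).
-/

namespace H72C

open Finset Equiv Pool.Agent.Helper91_CW

/-! ## B. Birth-death estimates -/

/-- B1 : supersolutions -/
def BSUP_stmt : Prop := ∀ (U : ℕ → ℝ) (m y : ℕ) (ρ c : ℝ) (ψ φ : ℕ → ℝ), GoodU U m →
  0 ≤ ρ → 0 ≤ c → (∀ j, y ≤ j → j ≤ m → 0 ≤ ψ j) →
  (∀ j, y ≤ j → j ≤ m → BD U m y ψ j ≤ ρ * ψ j) →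
  (∀ j, y ≤ j → j ≤ m → φ j ≤ c * ψ j) →
  ∀ t j, y ≤ j → j ≤ m → bIt U m y φ t j ≤ c * ρ ^ t * ψ j

/-- B2 : paths whose minimal level is exactly `y` -/
def BMIN_stmt : Prop := ∀ (U : ℕ → ℝ) (m y : ℕ) (ρ c : ℝ) (ψ φ : ℕ → ℝ), GoodU U m →
  0 ≤ ρ → 0 ≤ c → (∀ j, y ≤ j → j ≤ m → 0 ≤ ψ j) → 1 ≤ ψ y → (∀ j, 0 ≤ φ j) →
  (∀ j, y + 1 ≤ j → j ≤ m → BD U m y ψ j ≤ ρ * ψ j) →
  ∀ T, (∀ t, t ≤ T → bIt U m y φ t y ≤ c * ρ ^ t) →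
  ∀ t, t ≤ T → ∀ j, y + 1 ≤ j → j ≤ m →
    bIt U m y φ t j - bIt U m (y + 1) φ t j ≤ c * ρ ^ t * ψ j

/-- B3 : survival for a long time -/
def LADS_stmt : Prop := ∀ (U : ℕ → ℝ) (m J t4 : ℕ) (ε0 : ℝ), GoodU U m → 0 < ε0 → ε0 ≤ 1 / 8 →
  (∀ y, J ≤ y → y ≤ m → 2 ^ m * (1 - U y / 30) ^ t4 ≤ ε0 * (1 / 4) ^ y) →
  ∀ t, t4 ≤ t → ∀ j, j ≤ m → bIt U m 0 (fun _ => 1) t j ≤ 3 ^ J / 3 ^ j

/-- B4 : being at a low level at a late time -/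
def LADE_stmt : Prop := ∀ (U : ℕ → ℝ) (m J t4 i : ℕ) (ε0 ε σ : ℝ), GoodU U m →
  0 < ε0 → ε0 ≤ 1 / 8 → 0 < ε → ε ≤ 1 / 18 → 0 < σ → i ≤ m →
  ε * (SS U i + σ) ≤ σ / 2 →
  (∀ y, y < J → y ≤ m → y * Real.log 4 + Real.log (1 / ε0) ≤ (3 / 10) * ε * σ * U y) →
  (∀ y, J ≤ y → y ≤ m → 2 ^ m * (1 - U y / 30) ^ t4 ≤ ε0 * (1 / 4) ^ y) →
  ∀ t : ℕ, t4 ≤ t → SS U i + σ ≤ t → ∀ j, j ≤ m →
    bIt U m 0 (fun l => if l ≤ i then 1 else 0) t j ≤ 4 * ε0 / 3 ^ j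

/-- B5 : the root card stays -/
def LADL_stmt : Prop := ∀ (U : ℕ → ℝ) (m : ℕ) (lam ε : ℝ), GoodU U m → 0 < lam → 0 < ε → ε ≤ 1 →
  (∀ j, j ≤ m → lam * (4 / 3) ≤ ε * U j) →
  ∀ t : ℕ, 1 - bIt U m 0 (fun _ => 1) t 0 ≤ Real.exp (lam * ((1 + 2 * ε) * t - SS U m))

/-! ## C. The graph -/

/-- C1 -/
def ADJ_stmt : Prop := ∀ P : Par, (∀ x y, (gr P).Adj x y ↔ adjR P x y)

/-- C2 -/
def CONN_stmt : Prop := ∀ P : Par, (gr P).Connected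

open Classical in
/-- C3 -/
def DEG_stmt : Prop := ∀ (P : Par) (x : Vx P), (gr P).degree x = dg P x

/-- C4 : elementary properties of the weights -/
def WTS_stmt : Prop := ∀ P : Par,
  0 < nn P ∧ 0 < p1 P ∧ 2 * p1 P ≤ 1 / 2 ∧ 0 < nt P ∧
  (∀ x y, 0 ≤ wH P x y) ∧ (∀ x y, wH P x y = wH P y x) ∧ (∀ x, wH P x x = 0) ∧
  (∀ x, 0 ≤ qH P x) ∧ 0 ≤ rH P ∧
  totW (Fintype.card (Fin P.Mn)) (wH P) (qH P) (rH P) ≤ 1 ∧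
  nu (wX P) = stepW (Fin P.Mn) (wH P) (qH P) (rH P) ∧
  (∀ x y, wX P x y = wX P y x) ∧ (∀ x y, 0 ≤ wX P x y) ∧ (∀ x, wX P x x = 0) ∧
  (∀ x, ∑ y, wX P x y ≤ 1) ∧ wtot (wX P) ≤ 1

/-- C5 : vertices of the same cell are twins -/
def TWIN_stmt : Prop := ∀ (P : Par) (x x' : Hx P), 1 ≤ lv P x → cellN P x = cellN P x' →
  gd P x = gd P x' ∧ lv P x = lv P x' ∧ ce P x = ce P x' ∧
  qH P x = qH P x' ∧ ∀ y, y ≠ x → y ≠ x' → wH P x y = wH P x' y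

/-- C6 : size of the cells -/
def CELL_stmt : Prop := ∀ (P : Par) (Q : ℕ) (x : Hx P), Q ≤ lv P x →
  szl (cellN P) (univ.filter fun y => Q ≤ lv P y) x = 4 ^ lv P x

/-- C7 : the one-card kernel on level functions -/
def LEV_stmt : Prop := ∀ (P : Par) (φ : Bool → ℕ → ℝ) (t : ℕ) (x : Hx P),
  (Kw (Fintype.card (Fin P.Mn)) (wH P) (qH P))^[t] (fun y => φ (gd P y) (lv P y)) x =
    bIt (UP P (gd P x)) (P.m (gd P x)) 0 (φ (gd P x)) t (lv P x)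

/-- C8 : sums over gadget vertices -/
def SUM_stmt : Prop := ∀ (P : Par) (f : Bool → ℕ → ℝ),
  ∑ x : Hx P, f (gd P x) (lv P x) =
    ∑ g : Bool, ∑ j ∈ range (P.m g + 1), (P.M0 : ℝ) * 4 ^ j * f g j

/-- C9 : mixture decomposition of the step measure of the graph -/
def DEC_stmt : Prop := ∀ P : Par,
  ∃ (x1 x2 x1' x2' : Hx P), gd P x1 = false ∧ gd P x2 = true ∧ lv P x1 = 0 ∧ lv P x2 = 0 ∧
    nu (wG (gr P)) = (1 - 2 * p1 P) • nu (wX P) +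
      p1 P • pt (swap (Sum.inl x1) (Sum.inl x2)) + p1 P • pt (swap (Sum.inl x1') (Sum.inl x2'))

/-! ## D. Law of the walk, cutoff -/

/-- D1 : law in terms of the step measure, transported to `Fin n` -/
def LAW_stmt : Prop := ∀ (V : Type) [Fintype V] [DecidableEq V] (H : SimpleGraph V) (n : ℕ)
  (e : V ≃ Fin n), H.Connected → 2 ≤ n → ∀ t : ℕ,
  tvd (H.map e.toEmbedding) t = (1 / 2) * nrm (nu (wG H) ^ t - unif univ)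

/-- D2 : distance is nonincreasing -/
def MONO_stmt : Prop := ∀ (n : ℕ) (G : SimpleGraph (Fin n)), 2 ≤ n → G.Connected →
  ∀ s t : ℕ, s ≤ t → tvd G t ≤ tvd G s

/-- D3 : a criterion for the absence of cutoff -/
def CUT_stmt : Prop := ∀ (G : (n : ℕ) → SimpleGraph (Fin n)) (c ρ : ℝ), 0 < c → 0 < ρ →
  (∀ n, 2 ≤ n → (G n).Connected) →
  (∀ N : ℕ, ∃ n ≥ N, ∃ t1 t2 : ℕ, N ≤ t1 ∧ (1 + ρ) * t1 ≤ t2 ∧ tvd (G n) t1 ≤ 1 - c ∧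
    c ≤ tvd (G n) t2) →
  ¬ HasCutoff G

/-- D4 : mixtures, upper bound -/
def MIXU_stmt : Prop := ∀ (V : Type) [Fintype V] [DecidableEq V] (X R : Alg (Perm V)) (p : ℝ),
  IsProb X → IsProb R → 0 ≤ p → p ≤ 1 → ∀ t : ℕ,
  nrm (((1 - p) • X + p • R) ^ t - unif univ) ≤
    (1 - p) ^ t * nrm (X ^ t - unif univ) + 2 * (1 - (1 - p) ^ t)

/-- D5 : mixtures, lower bound -/
def MIXL_stmt : Prop := ∀ (V : Type) [Fintype V] [DecidableEq V] (w : V → V → ℝ)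
  (R : Alg (Perm V)) (p p' : ℝ) (Z1 Z2 : Finset V) (x1 x2 : V), (∀ x y, w x y = w y x) →
  (∀ x y, 0 ≤ w x y) → (∀ x, w x x = 0) → wtot w ≤ 1 → (∀ x, ∑ y, w x y ≤ 1) → NN R →
  0 ≤ p → p ≤ 1 → 0 ≤ p' → IsProb ((1 - p) • nu w + p' • pt (swap x1 x2) + R) →
  ∀ (a b t : ℕ), a + b ≤ t → 1 ≤ t → ∀ κ : ℝ, 0 ≤ κ →
  (∀ s, s + a + 1 ≤ t → κ ≤ (pk w)^[s] (fun x => if x ∈ Z1 then 1 else 0) x1) →
  (∀ s, s + b + 1 ≤ t → κ ≤ (pk w)^[s] (fun x => if x ∈ Z2 then 1 else 0) x2) →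
  2 * (((t - a - b : ℕ) : ℝ) * (p' * (1 - p) ^ (t - 1) * κ ^ 2) -
      (Z1.card : ℝ) * Z2.card / Fintype.card V) ≤
    nrm (((1 - p) • nu w + p' • pt (swap x1 x2) + R) ^ t - unif univ)

/-- D6 : comparison of the killed and the free kernel on the graph -/
def FREE_stmt : Prop := ∀ (P : Par) (φ : Hx P → ℝ), (∀ x, 0 ≤ φ x) → ∀ (s : ℕ) (x : Hx P),
  (Kw (Fintype.card (Fin P.Mn)) (wH P) (qH P))^[s] φ x ≤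
    (pk (wX P))^[s] (fun y => Sum.elim φ (fun _ => 0) y) (Sum.inl x)

/-- D7 : symmetry of the killed kernel, pair sums -/
def PAIR_stmt : Prop := ∀ (H : Type) [Fintype H] [DecidableEq H] (N : ℕ) (w : H → H → ℝ)
  (q : H → ℝ), (∀ x y, w x y = w y x) →
  (∀ (s t : ℕ) (f g : H → ℝ), ∑ z, (Kw N w q)^[s] f z * (Kw N w q)^[t] g z =
    ∑ z, f z * (Kw N w q)^[s + t] g z) ∧
  (∀ s : ℕ, N * ∑ v, q v * kw N w q s v = mw N w q s - mw N w q (s + 1))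

end H72C
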